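import Pool.Agent.J6H11.Ltf.Stm

/-!
# Module LTF-ALL: the union bound
-/

set_option autoImplicit false

namespace Pool.Agent.J6H11.Ltf

open Finset

namespace ALLaux

theorem fib {ι A : Type} [Fintype ι] [DecidableEq ι] [Fintype A] [DecidableEq A]
    (P : (ι → A) → Prop) [DecidablePred P] (i : ι) :
    ((univ : Finset (ι → A)).filter P).card * Fintype.card A =
      ∑ κ : ι → A, ((univ : Finset A).filter fun c => P (Function.update κ i c)).card := by
  let e : (ι → A) × A ≃ (ι → A) × A :=
    { toFun := fun p => (Function.update p.1 i p.2, p.1 i)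
      invFun := fun p => (Function.update p.1 i p.2, p.1 i)
      left_inv := fun p => by simp
      right_inv := fun p => by simp }
  have h1 : ∑ κ : ι → A, ((univ : Finset A).filter fun c => P (Function.update κ i c)).card =
      ∑ p : (ι → A) × A, if P (e p).1 then 1 else 0 := by
    rw [Fintype.sum_prod_type]
    refine Finset.sum_congr rfl fun κ _ => ?_
    rw [Finset.card_filter]
    rfl
  rw [h1, Equiv.sum_comp e (fun q : (ι → A) × A => if P q.1 then 1 else 0),
    Fintype.sum_prod_type, Finset.card_filter, Finset.sum_mul]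
  refine Finset.sum_congr rfl fun κ _ => ?_
  change _ = ∑ _y : A, (if P κ then 1 else 0)
  rw [Finset.sum_const, Finset.card_univ, smul_eq_mul, mul_comm]

/-- the smaller value on a block -/
noncomputable def lo {M : ℕ} (α : Fin M → Bool → ℝ) (κ : Cf M) : ℝ :=
  min (bv α κ false) (bv α κ true)

/-- the larger value on a block -/
noncomputable def hi {M : ℕ} (α : Fin M → Bool → ℝ) (κ : Cf M) : ℝ :=
  max (bv α κ false) (bv α κ true)

/-- the contribution of the other blocks -/
noncomputable def oth {M n : ℕ} (α : Fin n → Fin M → Bool → ℝ) (i : Fin n) (κ : Fin n → Cf M) : ℝ :=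
  ∑ i', if i' < i then hi (α i') (κ i') else if i' = i then 0 else lo (α i') (κ i')

theorem oth_update {M n : ℕ} (α : Fin n → Fin M → Bool → ℝ) (i : Fin n) (κ : Fin n → Cf M)
    (c : Cf M) : oth α i (Function.update κ i c) = oth α i κ := by
  unfold oth
  refine Finset.sum_congr rfl fun i' _ => ?_
  by_cases h : i' = i
  · subst h
    simp
  · rw [Function.update_of_ne h]

theorem exists_block {M n : ℕ} (α : Fin n → Fin M → Bool → ℝ) (κ : Fin n → Cf M) (θ : ℝ)
    (h1 : ∑ i, lo (α i) (κ i) < θ) (h2 : θ ≤ ∑ i, hi (α i) (κ i)) :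
    ∃ i, lo (α i) (κ i) < θ - oth α i κ ∧ θ - oth α i κ ≤ hi (α i) (κ i) := by
  classical
  let g : ℕ → ℝ := fun k => ∑ i : Fin n, if (i : ℕ) < k then hi (α i) (κ i) else lo (α i) (κ i)
  have hg0 : g 0 < θ := by
    simpa [g] using h1
  have hgn : θ ≤ g n := by
    simpa [g] using h2
  have hex : ∃ k, θ ≤ g k := ⟨n, hgn⟩
  obtain ⟨k, hk, hmin⟩ : ∃ k, θ ≤ g k ∧ ∀ m < k, g m < θ :=
    ⟨Nat.find hex, Nat.find_spec hex, fun m hm => not_le.1 (Nat.find_min hex hm)⟩
  obtain ⟨m, rfl⟩ : ∃ m, k = m + 1 := by
    cases k with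
    | zero => exact absurd hk (not_le.2 hg0)
    | succ m => exact ⟨m, rfl⟩
  have hm : m < n := by
    by_contra hcon
    exact absurd hgn (not_le.2 (hmin n (by omega)))
  have hgm := hmin m (Nat.lt_succ_self m)
  let i : Fin n := ⟨m, hm⟩
  have e1 : g m = oth α i κ + lo (α i) (κ i) := by
    have e2 : lo (α i) (κ i) = ∑ i' : Fin n, if i' = i then lo (α i') (κ i') else 0 := by
      rw [Finset.sum_ite_eq' univ i]
      simp
    rw [e2]
    unfold oth
    rw [← Finset.sum_add_distrib]
    refine Finset.sum_congr rfl fun i' _ => ?_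
    by_cases h3 : i' = i
    · subst h3
      simp [i]
    · have h4 : (i' : ℕ) ≠ m := fun h => h3 (Fin.ext h)
      by_cases h5 : (i' : ℕ) < m
      · have h6 : i' < i := h5
        rw [if_pos h5, if_pos h6, if_neg h3, add_zero]
      · have h6 : ¬ i' < i := h5
        rw [if_neg h5, if_neg h6, if_neg h3, if_neg h3, add_zero]
  have e3 : g (m + 1) = oth α i κ + hi (α i) (κ i) := by
    have e2 : hi (α i) (κ i) = ∑ i' : Fin n, if i' = i then hi (α i') (κ i') else 0 := by
      rw [Finset.sum_ite_eq' univ i]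
      simp
    rw [e2]
    unfold oth
    rw [← Finset.sum_add_distrib]
    refine Finset.sum_congr rfl fun i' _ => ?_
    by_cases h3 : i' = i
    · subst h3
      simp [i]
    · have h4 : (i' : ℕ) ≠ m := fun h => h3 (Fin.ext h)
      by_cases h5 : (i' : ℕ) < m
      · have h6 : i' < i := h5
        rw [if_pos (by omega), if_pos h6, if_neg h3, add_zero]
      · have h6 : ¬ i' < i := h5
        rw [if_neg (by omega), if_neg h6, if_neg h3, if_neg h3, add_zero]
  refine ⟨i, ?_, ?_⟩
  · linarith
  · linarith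

theorem lo_le {M : ℕ} (α : Fin M → Bool → ℝ) (κ : Cf M) (t : Bool) : lo α κ ≤ bv α κ t := by
  cases t
  · exact min_le_left _ _
  · exact min_le_right _ _

theorem le_hi {M : ℕ} (α : Fin M → Bool → ℝ) (κ : Cf M) (t : Bool) : bv α κ t ≤ hi α κ := by
  cases t
  · exact le_max_left _ _
  · exact le_max_right _ _

end ALLaux

open ALLaux in
theorem t_ALL (hB : S_BLK) : S_ALL := by
  classical
  intro M n T α θ hM
  by_contra hcon
  push Not at hcon
  have hM0 : 0 < M := by
    rcases Nat.eq_zero_or_pos M with h | h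
    · subst h
      exfalso
      rw [Nat.cast_zero, Real.sqrt_zero] at hM
      have : (0 : ℝ) ≤ 2 * (T : ℝ) * n := by positivity
      linarith
    · exact h
  have : Nonempty (Cf M) := ⟨(⟨0, hM0⟩, fun _ => true, fun _ => true)⟩
  have hC : (0 : ℝ) < Fintype.card (Cf M) := by exact_mod_cast Fintype.card_pos
  have hN : (0 : ℝ) < Fintype.card (Fin n → Cf M) := by exact_mod_cast Fintype.card_pos
  let P : Fin T → Fin n → (Fin n → Cf M) → Prop := fun t i κ =>
    lo (α t i) (κ i) < θ t - oth (α t) i κ ∧ θ t - oth (α t) i κ ≤ hi (α t i) (κ i)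
  have hP : ∀ κ, ∃ t i, P t i κ := by
    intro κ
    obtain ⟨t, ⟨y, hy⟩, ⟨z, hz⟩⟩ := hcon κ
    refine ⟨t, exists_block (α t) κ (θ t) ?_ ?_⟩
    · exact lt_of_le_of_lt (Finset.sum_le_sum fun i _ => lo_le (α t i) (κ i) (y i)) hy
    · exact hz.trans (Finset.sum_le_sum fun i _ => le_hi (α t i) (κ i) (z i))
  have hcard : ∀ t i, (((univ : Finset (Fin n → Cf M)).filter (P t i)).card : ℝ) * Real.sqrt M ≤
      2 * Fintype.card (Fin n → Cf M) := by
    intro t i
    have h1 := fib (P t i) i
    have h2 : ∀ κ : Fin n → Cf M,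
        (((univ : Finset (Cf M)).filter fun c => P t i (Function.update κ i c)).card : ℝ) *
          Real.sqrt M ≤ 2 * Fintype.card (Cf M) := by
      intro κ
      have h3 := hB M (α t i) (θ t - oth (α t) i κ)
      have h4 : ((univ : Finset (Cf M)).filter fun c => P t i (Function.update κ i c)) =
          (univ : Finset (Cf M)).filter fun κ' => min (bv (α t i) κ' false) (bv (α t i) κ' true) <
            θ t - oth (α t) i κ ∧ θ t - oth (α t) i κ ≤
              max (bv (α t i) κ' false) (bv (α t i) κ' true) := by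
        ext c
        simp only [Finset.mem_filter, Finset.mem_univ, true_and, P, lo, hi, oth_update,
          Function.update_self]
      rw [h4]
      exact h3
    have h5 : (((univ : Finset (Fin n → Cf M)).filter (P t i)).card : ℝ) * Fintype.card (Cf M) *
        Real.sqrt M ≤ Fintype.card (Fin n → Cf M) * (2 * Fintype.card (Cf M)) := by
      have h6 : (((univ : Finset (Fin n → Cf M)).filter (P t i)).card : ℝ) *
          Fintype.card (Cf M) = ∑ κ : Fin n → Cf M,
          (((univ : Finset (Cf M)).filter fun c => P t i (Function.update κ i c)).card : ℝ) := by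
        exact_mod_cast h1
      rw [h6, Finset.sum_mul]
      calc _ ≤ ∑ _κ : Fin n → Cf M, 2 * (Fintype.card (Cf M) : ℝ) :=
            Finset.sum_le_sum fun κ _ => h2 κ
        _ = _ := by rw [Finset.sum_const, Finset.card_univ, nsmul_eq_mul]
    have h7 : ((((univ : Finset (Fin n → Cf M)).filter (P t i)).card : ℝ) * Real.sqrt M) *
        Fintype.card (Cf M) ≤ (2 * Fintype.card (Fin n → Cf M)) * Fintype.card (Cf M) := by
      calc _ = (((univ : Finset (Fin n → Cf M)).filter (P t i)).card : ℝ) * Fintype.card (Cf M) *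
            Real.sqrt M := by ring
        _ ≤ _ := h5
        _ = _ := by ring
    exact le_of_mul_le_mul_right h7 hC
  have hun : (Fintype.card (Fin n → Cf M) : ℝ) ≤
      ∑ t : Fin T, ∑ i : Fin n, (((univ : Finset (Fin n → Cf M)).filter (P t i)).card : ℝ) := by
    have h1 : (univ : Finset (Fin n → Cf M)) ⊆ (univ : Finset (Fin T)).biUnion fun t =>
        (univ : Finset (Fin n)).biUnion fun i => (univ : Finset (Fin n → Cf M)).filter (P t i) := by
      intro κ _
      obtain ⟨t, i, h⟩ := hP κ
      exact Finset.mem_biUnion.2 ⟨t, Finset.mem_univ _, Finset.mem_biUnion.2 ⟨i, Finset.mem_univ _,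
        Finset.mem_filter.2 ⟨Finset.mem_univ _, h⟩⟩⟩
    have h2 := (Finset.card_le_card h1).trans (Finset.card_biUnion_le.trans
      (Finset.sum_le_sum fun t _ => Finset.card_biUnion_le))
    rw [Finset.card_univ] at h2
    exact_mod_cast h2
  have hfin : (Fintype.card (Fin n → Cf M) : ℝ) * Real.sqrt M ≤
      (Fintype.card (Fin n → Cf M) : ℝ) * (2 * (T : ℝ) * n) := by
    calc (Fintype.card (Fin n → Cf M) : ℝ) * Real.sqrt M
        ≤ (∑ t : Fin T, ∑ i : Fin n,
          (((univ : Finset (Fin n → Cf M)).filter (P t i)).card : ℝ)) * Real.sqrt M :=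
          mul_le_mul_of_nonneg_right hun (Real.sqrt_nonneg _)
      _ = ∑ t : Fin T, ∑ i : Fin n,
          (((univ : Finset (Fin n → Cf M)).filter (P t i)).card : ℝ) * Real.sqrt M := by
          rw [Finset.sum_mul]
          refine Finset.sum_congr rfl fun t _ => ?_
          rw [Finset.sum_mul]
      _ ≤ ∑ _t : Fin T, ∑ _i : Fin n, 2 * (Fintype.card (Fin n → Cf M) : ℝ) :=
          Finset.sum_le_sum fun t _ => Finset.sum_le_sum fun i _ => hcard t i
      _ = _ := by
          simp only [Finset.sum_const, Finset.card_univ, Fintype.card_fin, nsmul_eq_mul]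
          ring
  have := le_of_mul_le_mul_left hfin hN
  linarith

end Pool.Agent.J6H11.Ltf
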