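import Pool.Agent.J6H11.Ltf.Stm

/-!
# Project LTF (helper11), module BLK (helper27): one block
-/

set_option autoImplicit false

namespace Pool.Agent.J6H11.Ltf

open Finset

namespace BLKaux

theorem bv_eq {M : ℕ} (α : Fin M → Bool → ℝ) (j : Fin M) (r ξ : Fin M → Bool) (t : Bool) :
    bv α (j, r, ξ) t = ∑ c, (if c = j then 0 else α c (r c)) +
      ∑ c, (if ξ c = true then (if c = j then 0 else α c (!r c)) else 0) +
      (if t = true then α j (!r j) else 0) := by
  have h1 : (if t = true then α j (!r j) else 0) =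
      ∑ c, (if c = j then (if t = true then α c (!r c) else 0) else 0) := by
    rw [sum_ite_eq' univ j (fun c => if t = true then α c (!r c) else 0)]
    simp
  rw [h1, ← sum_add_distrib, ← sum_add_distrib, bv]
  refine sum_congr rfl fun c _ => ?_
  dsimp only
  by_cases hc : c = j
  · simp [hc]
  · simp [hc]

theorem one (hL : S_LO) {M : ℕ} (α : Fin M → Bool → ℝ) (τ : ℝ) (j : Fin M) (r : Fin M → Bool) :
    ((univ : Finset (Fin M → Bool)).filter fun ξ =>
      min (bv α (j, r, ξ) false) (bv α (j, r, ξ) true) < τ ∧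
        τ ≤ max (bv α (j, r, ξ) false) (bv α (j, r, ξ) true)).card ≤
    2 ^ (M - (univ.filter fun c => c ≠ j ∧ |α j (!r j)| ≤ |α c (!r c)|).card) *
      (univ.filter fun c => c ≠ j ∧ |α j (!r j)| ≤ |α c (!r c)|).card.choose
        ((univ.filter fun c => c ≠ j ∧ |α j (!r j)| ≤ |α c (!r c)|).card / 2) := by
  set J : Finset (Fin M) := univ.filter fun c => c ≠ j ∧ |α j (!r j)| ≤ |α c (!r c)| with hJ
  set b' : Fin M → ℝ := fun c => if c = j then 0 else α c (!r c) with hb'
  set A : ℝ := ∑ c, (if c = j then 0 else α c (r c)) with hA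
  have hJb : ∀ c ∈ J, |α j (!r j)| ≤ |b' c| := by
    intro c hc
    rw [hJ, mem_filter] at hc
    simp only [hb']
    rw [if_neg hc.2.1]
    exact hc.2.2
  have hval : ∀ (ξ : Fin M → Bool) (t : Bool), bv α (j, r, ξ) t =
      A + ∑ c, (if ξ c = true then b' c else 0) + (if t = true then α j (!r j) else 0) :=
    fun ξ t => bv_eq α j r ξ t
  rcases lt_trichotomy (α j (!r j)) 0 with h | h | h
  · -- negative
    refine (card_le_card ?_).trans (hL M b' J (τ - A) (|α j (!r j)|) (abs_pos.2 h.ne) hJb)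
    intro ξ hξ
    rw [mem_filter] at hξ ⊢
    refine ⟨mem_univ _, ?_⟩
    obtain ⟨-, h1, h2⟩ := hξ
    rw [hval, hval] at h1 h2
    simp only [Bool.false_eq_true, if_false, if_true] at h1 h2
    rw [min_eq_right (by linarith)] at h1
    rw [max_eq_left (by linarith)] at h2
    rw [abs_of_neg h]
    constructor <;> linarith
  · -- zero
    refine le_trans (le_of_eq ?_) (Nat.zero_le _)
    rw [card_eq_zero, filter_eq_empty_iff]
    intro ξ _ hξ
    obtain ⟨h1, h2⟩ := hξ
    rw [hval, hval] at h1 h2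
    simp only [Bool.false_eq_true, if_false, if_true, h] at h1 h2
    simp only [min_self, max_self] at h1 h2
    linarith
  · -- positive
    refine (card_le_card ?_).trans (hL M b' J (τ - A - α j (!r j)) (|α j (!r j)|) (abs_pos.2 h.ne') hJb)
    intro ξ hξ
    rw [mem_filter] at hξ ⊢
    refine ⟨mem_univ _, ?_⟩
    obtain ⟨-, h1, h2⟩ := hξ
    rw [hval, hval] at h1 h2
    simp only [Bool.false_eq_true, if_false, if_true] at h1 h2
    rw [min_eq_left (by linarith)] at h1
    rw [max_eq_right (by linarith)] at h2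
    rw [abs_of_pos h]
    constructor <;> linarith

theorem sorted (hC : S_CB) {M : ℕ} (β : Fin M → ℝ) :
    ∑ j, 1 / Real.sqrt (((univ.filter fun c => c ≠ j ∧ β j ≤ β c).card : ℝ) + 1) ≤
      2 * Real.sqrt M := by
  rw [← Equiv.sum_comp (Tuple.sort β)]
  have h1 : ∀ k : Fin M, 1 / Real.sqrt (((univ.filter fun c => c ≠ Tuple.sort β k ∧
      β (Tuple.sort β k) ≤ β c).card : ℝ) + 1) ≤ 1 / Real.sqrt (((M - 1 - (k : ℕ) : ℕ) : ℝ) + 1) := by
    intro k
    have h2 : M - 1 - (k : ℕ) ≤ (univ.filter fun c => c ≠ Tuple.sort β k ∧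
        β (Tuple.sort β k) ≤ β c).card := by
      rw [← Fin.card_Ioi k, ← card_image_of_injective (Finset.Ioi k) (Tuple.sort β).injective]
      refine card_le_card ?_
      intro c hc
      obtain ⟨k', hk', rfl⟩ := mem_image.1 hc
      rw [mem_Ioi] at hk'
      rw [mem_filter]
      refine ⟨mem_univ _, ?_, Tuple.monotone_sort β hk'.le⟩
      intro h
      exact hk'.ne' ((Tuple.sort β).injective h)
    refine one_div_le_one_div_of_le (Real.sqrt_pos.2 (by positivity)) (Real.sqrt_le_sqrt ?_)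
    have h3 : (((M - 1 - (k : ℕ) : ℕ) : ℝ)) ≤ ((univ.filter fun c => c ≠ Tuple.sort β k ∧
        β (Tuple.sort β k) ≤ β c).card : ℝ) := by exact_mod_cast h2
    linarith
  refine (sum_le_sum fun k _ => h1 k).trans ?_
  rw [Fin.sum_univ_eq_sum_range (fun k => 1 / Real.sqrt (((M - 1 - k : ℕ) : ℝ) + 1)) M,
    sum_range_reflect (fun k => 1 / Real.sqrt ((k : ℝ) + 1)) M]
  exact hC.2 M

theorem bound (hC : S_CB) {M m : ℕ} (hm : m ≤ M) :
    ((2 ^ (M - m) * m.choose (m / 2) : ℕ) : ℝ) ≤ 2 ^ M * (1 / Real.sqrt ((m : ℝ) + 1)) := by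
  have h1 := hC.1 m
  have h2 : 0 < Real.sqrt ((m : ℝ) + 1) := Real.sqrt_pos.2 (by positivity)
  push_cast
  rw [mul_one_div, le_div_iff₀ h2, mul_assoc]
  calc (2 : ℝ) ^ (M - m) * ((m.choose (m / 2) : ℝ) * Real.sqrt (m + 1)) ≤ 2 ^ (M - m) * 2 ^ m := by
        exact mul_le_mul_of_nonneg_left h1 (by positivity)
    _ = 2 ^ M := by rw [← pow_add]; congr 1; omega

end BLKaux

open BLKaux

theorem t_BLK (hL : S_LO) (hC : S_CB) : S_BLK := by
  intro M α τ
  set P : Cf M → Prop := fun κ => min (bv α κ false) (bv α κ true) < τ ∧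
    τ ≤ max (bv α κ false) (bv α κ true) with hP
  have hcard : (((univ : Finset (Cf M)).filter fun κ => P κ).card : ℝ) ≤
      2 ^ M * (2 ^ M * (2 * Real.sqrt M)) := by
    have h1 : ((univ : Finset (Cf M)).filter fun κ => P κ).card =
        ∑ r : Fin M → Bool, ∑ j : Fin M, ((univ : Finset (Fin M → Bool)).filter fun ξ => P (j, r, ξ)).card := by
      rw [card_filter, Fintype.sum_prod_type]
      simp_rw [Fintype.sum_prod_type]
      rw [sum_comm]
      refine sum_congr rfl fun r _ => sum_congr rfl fun j _ => ?_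
      rw [card_filter]
    rw [h1]
    push_cast
    have h2 : ∀ r : Fin M → Bool, ∑ j : Fin M,
        (((univ : Finset (Fin M → Bool)).filter fun ξ => P (j, r, ξ)).card : ℝ) ≤
          2 ^ M * (2 * Real.sqrt M) := by
      intro r
      have h3 : ∀ j : Fin M, (((univ : Finset (Fin M → Bool)).filter fun ξ => P (j, r, ξ)).card : ℝ) ≤
          2 ^ M * (1 / Real.sqrt (((univ.filter fun c => c ≠ j ∧
            |α j (!r j)| ≤ |α c (!r c)|).card : ℝ) + 1)) := by
        intro j
        have h4 := one hL α τ j r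
        refine le_trans (by exact_mod_cast h4) (bound hC ?_)
        exact (card_le_univ _).trans (by simp)
      refine (sum_le_sum fun j _ => h3 j).trans ?_
      rw [← mul_sum]
      exact mul_le_mul_of_nonneg_left (sorted hC (fun c => |α c (!r c)|)) (by positivity)
    refine (sum_le_sum fun r _ => h2 r).trans ?_
    rw [sum_const, card_univ, nsmul_eq_mul]
    simp
  have h5 : (Fintype.card (Cf M) : ℝ) = M * (2 ^ M * 2 ^ M) := by
    simp [Cf, Fintype.card_prod]
  rw [h5]
  refine (mul_le_mul_of_nonneg_right hcard (Real.sqrt_nonneg _)).trans (le_of_eq ?_)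
  have h6 : Real.sqrt M * Real.sqrt M = M := Real.mul_self_sqrt (by positivity)
  calc (2 : ℝ) ^ M * (2 ^ M * (2 * Real.sqrt M)) * Real.sqrt M =
      2 * (2 ^ M * 2 ^ M) * (Real.sqrt M * Real.sqrt M) := by ring
    _ = 2 * (M * (2 ^ M * 2 ^ M)) := by rw [h6]; ring

end Pool.Agent.J6H11.Ltf
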