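import Pool.Agent.J6H11.Ltf.Stm

/-! # LTF-CB: the central binomial bound and the sum of `1 / √(k + 1)` -/

set_option autoImplicit false

namespace Pool.Agent.J6H11.Ltf

open Finset

namespace CBaux

lemma cb_sq (k : ℕ) : (Nat.centralBinom k) ^ 2 * (3 * k + 1) ≤ 16 ^ k := by
  induction k with
  | zero => simp
  | succ k ih =>
    have h := Nat.succ_mul_centralBinom_succ k
    have hpos : 0 < (k + 1) ^ 2 := by positivity
    refine Nat.le_of_mul_le_mul_left ?_ hpos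
    calc (k + 1) ^ 2 * ((Nat.centralBinom (k + 1)) ^ 2 * (3 * (k + 1) + 1))
        = ((k + 1) * Nat.centralBinom (k + 1)) ^ 2 * (3 * (k + 1) + 1) := by ring
      _ = (2 * (2 * k + 1) * Nat.centralBinom k) ^ 2 * (3 * (k + 1) + 1) := by rw [h]
      _ = (Nat.centralBinom k) ^ 2 * (4 * ((2 * k + 1) ^ 2 * (3 * k + 4))) := by ring
      _ ≤ (Nat.centralBinom k) ^ 2 * (4 * (4 * (k + 1) ^ 2 * (3 * k + 1))) := by
          refine Nat.mul_le_mul_left _ (Nat.mul_le_mul_left _ ?_)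
          nlinarith [Nat.zero_le k]
      _ = 16 * (k + 1) ^ 2 * ((Nat.centralBinom k) ^ 2 * (3 * k + 1)) := by ring
      _ ≤ 16 * (k + 1) ^ 2 * 16 ^ k := Nat.mul_le_mul_left _ ih
      _ = (k + 1) ^ 2 * 16 ^ (k + 1) := by ring

lemma even_sq (k : ℕ) : ((2 * k).choose ((2 * k) / 2)) ^ 2 * (2 * k + 1) ≤ (2 ^ (2 * k)) ^ 2 := by
  have h := cb_sq k
  have e : (2 * k) / 2 = k := by omega
  rw [e]
  rw [Nat.centralBinom] at h
  calc ((2 * k).choose k) ^ 2 * (2 * k + 1) ≤ ((2 * k).choose k) ^ 2 * (3 * k + 1) :=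
        Nat.mul_le_mul_left _ (by omega)
    _ ≤ 16 ^ k := h
    _ = (2 ^ (2 * k)) ^ 2 := by
        rw [← pow_mul, show 2 * k * 2 = 4 * k by ring, pow_mul]; norm_num

lemma odd_sq (k : ℕ) :
    ((2 * k + 1).choose ((2 * k + 1) / 2)) ^ 2 * (2 * k + 1 + 1) ≤ (2 ^ (2 * k + 1)) ^ 2 := by
  have h := cb_sq (k + 1)
  have e : (2 * k + 1) / 2 = k := by omega
  rw [e]
  have e2 : Nat.centralBinom (k + 1) = 2 * (2 * k + 1).choose k := by
    rw [Nat.centralBinom, show 2 * (k + 1) = (2 * k + 1) + 1 by ring, Nat.choose_succ_succ',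
      Nat.choose_symm_half]
    ring
  rw [e2] at h
  have h3 : 4 * (((2 * k + 1).choose k) ^ 2 * (3 * (k + 1) + 1)) ≤ 4 * (2 ^ (2 * k + 1)) ^ 2 := by
    calc 4 * (((2 * k + 1).choose k) ^ 2 * (3 * (k + 1) + 1))
        = (2 * (2 * k + 1).choose k) ^ 2 * (3 * (k + 1) + 1) := by ring
      _ ≤ 16 ^ (k + 1) := h
      _ = 4 * (2 ^ (2 * k + 1)) ^ 2 := by
          rw [← pow_mul, show (16 : ℕ) = 2 ^ 4 by norm_num, show (4 : ℕ) = 2 ^ 2 by norm_num,
            ← pow_mul, ← pow_add]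
          congr 1
          ring
  have h4 := Nat.le_of_mul_le_mul_left h3 (by norm_num)
  exact le_trans (Nat.mul_le_mul_left _ (by omega)) h4

lemma all_sq (m : ℕ) : (m.choose (m / 2)) ^ 2 * (m + 1) ≤ (2 ^ m) ^ 2 := by
  rcases Nat.even_or_odd' m with ⟨k, rfl | rfl⟩
  · exact even_sq k
  · exact odd_sq k

end CBaux

theorem t_CB : S_CB := by
  refine ⟨fun m => ?_, fun M => ?_⟩
  · have h : ((m.choose (m / 2) : ℕ) : ℝ) ^ 2 * ((m : ℝ) + 1) ≤ ((2 : ℝ) ^ m) ^ 2 := by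
      exact_mod_cast CBaux.all_sq m
    have h0 : (0 : ℝ) ≤ (m : ℝ) + 1 := by positivity
    refine le_of_sq_le_sq ?_ (by positivity)
    rw [mul_pow, Real.sq_sqrt h0]
    exact h
  · induction M with
    | zero => simp
    | succ M ih =>
      rw [Finset.sum_range_succ]
      have h0 : (0 : ℝ) ≤ (M : ℝ) := by positivity
      have h1 : (0 : ℝ) < (M : ℝ) + 1 := by positivity
      have hs := Real.sq_sqrt h1.le
      have ht := Real.sq_sqrt h0
      have hspos : 0 < Real.sqrt ((M : ℝ) + 1) := Real.sqrt_pos.mpr h1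
      have key : 1 / Real.sqrt ((M : ℝ) + 1)
          ≤ 2 * Real.sqrt ((M : ℝ) + 1) - 2 * Real.sqrt (M : ℝ) := by
        rw [div_le_iff₀ hspos]
        nlinarith [sq_nonneg (Real.sqrt ((M : ℝ) + 1) - Real.sqrt (M : ℝ))]
      push_cast
      linarith
end Pool.Agent.J6H11.Ltf
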