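import Pool.Agent.J6H11.Ltf.Stm

/-!
# The theorem of Erdős and Littlewood–Offord (module LTF-LO)
-/

set_option autoImplicit false

namespace Pool.Agent.J6H11.Ltf

open Finset

namespace LOaux

/-- the sum -/
noncomputable def S {M : ℕ} (b : Fin M → ℝ) (ξ : Fin M → Bool) : ℝ :=
  ∑ c, (if ξ c = true then b c else 0)

/-- the signed set -/
noncomputable def A {M : ℕ} (b : Fin M → ℝ) (J : Finset (Fin M)) (ξ : Fin M → Bool) :
    Finset {c // c ∈ J} :=
  by
    classical
    exact univ.filter fun c => (ξ c.1 = true ↔ 0 < b c.1)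

theorem mem_A {M : ℕ} (b : Fin M → ℝ) (J : Finset (Fin M)) (ξ : Fin M → Bool)
    (c : {c // c ∈ J}) : c ∈ A b J ξ ↔ (ξ c.1 = true ↔ 0 < b c.1) := by
  simp [A]

theorem A_inj {M : ℕ} (b : Fin M → ℝ) (J : Finset (Fin M)) (ξ ξ' : Fin M → Bool)
    (h : A b J ξ = A b J ξ') (hr : ∀ c, c ∉ J → ξ c = ξ' c) : ξ = ξ' := by
  funext c
  by_cases hc : c ∈ J
  · have h1 := mem_A b J ξ ⟨c, hc⟩
    have h2 := mem_A b J ξ' ⟨c, hc⟩
    rw [h, h2] at h1
    simp only at h1
    by_cases hb : 0 < b c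
    · cases h3 : ξ c <;> cases h4 : ξ' c <;> simp_all
    · cases h3 : ξ c <;> cases h4 : ξ' c <;> simp_all
  · exact hr c hc

theorem A_lt {M : ℕ} (b : Fin M → ℝ) (J : Finset (Fin M)) (δ : ℝ)
    (hJ : ∀ c ∈ J, δ ≤ |b c|) (ξ ξ' : Fin M → Bool)
    (hr : ∀ c, c ∉ J → ξ c = ξ' c) (hne : A b J ξ ≠ A b J ξ') (hsub : A b J ξ ⊆ A b J ξ') :
    S b ξ + δ ≤ S b ξ' := by
  obtain ⟨c₀, hc₀', hc₀⟩ : ∃ c₀, c₀ ∈ A b J ξ' ∧ c₀ ∉ A b J ξ := by
    by_contra hcon
    push Not at hcon
    exact hne (Finset.Subset.antisymm hsub hcon)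
  have hterm : ∀ c, (if ξ c = true then b c else 0) ≤ (if ξ' c = true then b c else 0) := by
    intro c
    by_cases hc : c ∈ J
    · have h1 := mem_A b J ξ ⟨c, hc⟩
      have h2 := mem_A b J ξ' ⟨c, hc⟩
      have h3 := @hsub ⟨c, hc⟩
      simp only at h1 h2
      rw [h1, h2] at h3
      by_cases hb : 0 < b c
      · have hb' := hb.le
        cases h5 : ξ c <;> cases h6 : ξ' c <;> simp_all
      · have hb' := not_lt.mp hb
        cases h5 : ξ c <;> cases h6 : ξ' c <;> simp_all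
    · rw [hr c hc]
  have hterm0 : (if ξ c₀.1 = true then b c₀.1 else 0) + δ ≤
      (if ξ' c₀.1 = true then b c₀.1 else 0) := by
    have h1 := mem_A b J ξ c₀
    have h2 := mem_A b J ξ' c₀
    have h3 := hJ c₀.1 c₀.2
    rw [h1] at hc₀
    rw [h2] at hc₀'
    by_cases hb : 0 < b c₀.1
    · rw [abs_of_pos hb] at h3
      cases h5 : ξ c₀.1 <;> cases h6 : ξ' c₀.1 <;> simp_all
    · rw [abs_of_nonpos (not_lt.mp hb)] at h3
      cases h5 : ξ c₀.1 <;> cases h6 : ξ' c₀.1 <;> simp_all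
      linarith
  unfold S
  rw [← Finset.add_sum_erase univ _ (Finset.mem_univ c₀.1),
    ← Finset.add_sum_erase univ (fun c => if ξ' c = true then b c else 0)
      (Finset.mem_univ c₀.1)]
  have := Finset.sum_le_sum (s := univ.erase c₀.1) (fun c _ => hterm c)
  linarith

end LOaux

open LOaux in
theorem t_LO : S_LO := by
  classical
  intro M b J u δ hδ hJ
  set F := (univ : Finset (Fin M → Bool)).filter fun ξ =>
    u ≤ ∑ c, (if ξ c = true then b c else 0) ∧
    ∑ c, (if ξ c = true then b c else 0) < u + δ with hF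
  have key := Finset.card_le_mul_card_image_of_maps_to (s := F)
    (f := fun (ξ : Fin M → Bool) (c : {c // c ∉ J}) => ξ c.1)
    (t := (univ : Finset ({c // c ∉ J} → Bool))) (fun _ _ => Finset.mem_univ _)
    (J.card.choose (J.card / 2)) ?_
  · rw [Finset.card_univ, Fintype.card_fun, Fintype.card_bool] at key
    have hc : Fintype.card {c // c ∉ J} = M - J.card := by
      rw [Fintype.card_subtype_compl (fun c => c ∈ J)]
      simp
    rw [hc] at key
    rw [mul_comm]
    exact key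
  · intro η _
    set G := F.filter (fun ξ => (fun (c : {c // c ∉ J}) => ξ c.1) = η) with hG
    have hGr : ∀ ξ ∈ G, ∀ ξ' ∈ G, ∀ c, c ∉ J → ξ c = ξ' c := by
      intro ξ h ξ' h' c hc
      have e1 := (Finset.mem_filter.mp h).2
      have e2 := (Finset.mem_filter.mp h').2
      have := congrFun (e1.trans e2.symm) ⟨c, hc⟩
      exact this
    have hGF : ∀ ξ ∈ G, u ≤ S b ξ ∧ S b ξ < u + δ := by
      intro ξ h
      have e1 := (Finset.mem_filter.mp h).1
      exact (Finset.mem_filter.mp e1).2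
    have hcard : G.card = (G.image (A b J)).card := by
      rw [Finset.card_image_of_injOn]
      intro ξ h ξ' h' e
      exact A_inj b J ξ ξ' e (hGr ξ h ξ' h')
    rw [hcard]
    have hanti : IsAntichain (· ⊆ ·) ((G.image (A b J) : Finset (Finset {c // c ∈ J})) :
        Set (Finset {c // c ∈ J})) := by
      intro X hX Y hY hne hsub
      obtain ⟨ξ, h, rfl⟩ := Finset.mem_image.mp (Finset.mem_coe.mp hX)
      obtain ⟨ξ', h', rfl⟩ := Finset.mem_image.mp (Finset.mem_coe.mp hY)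
      have h1 := A_lt b J δ hJ ξ ξ' (hGr ξ h ξ' h') hne hsub
      have h2 := hGF ξ h
      have h3 := hGF ξ' h'
      linarith [h2.1, h3.2]
    have := hanti.sperner
    simpa using this

end Pool.Agent.J6H11.Ltf
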