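import Pool.Agent.J6H11.Ltf.Stm
import Pool.Agent.J6H11.Hlp.Hier
import Pool.Agent.J6H11.Hlp.Sub

/-!
# Linear threshold functions are constant on subcubes: the transfer theorem
-/

set_option autoImplicit false
set_option linter.unusedSectionVars false

namespace Pool.Agent.J6H11.Ltf

open Finset Filter Pool.Agent.J6H27.MPH Pool.Agent.H520R2 Pool.Agent.H520R2.NM
  Pool.Agent.J6H11.Hlp

/-- number of clauses of a block -/
def mm (N n : ℕ) : ℕ := N / (2 * n)

/-- the variable number `b` of the clause `c` of the block `i` -/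
def pos {N n : ℕ} (i : Fin n) (c : Fin (mm N n)) (b : Bool) : Fin N :=
  ⟨i * (2 * mm N n) + (2 * c + if b = true then 1 else 0), by
    have h1 := c.2
    have h2 := i.2
    have h3 : 2 * (c : ℕ) + (if b = true then 1 else 0) < 2 * mm N n := by
      split_ifs <;> omega
    have h4 : ((i : ℕ) + 1) * (2 * mm N n) ≤ n * (2 * mm N n) := Nat.mul_le_mul_right _ h2
    have h5 : n * (2 * mm N n) ≤ N := by
      unfold mm
      calc n * (2 * (N / (2 * n))) = 2 * n * (N / (2 * n)) := by ring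
        _ ≤ N := Nat.mul_div_le N (2 * n)
    rw [Nat.add_mul, Nat.one_mul] at h4
    omega⟩

theorem pos_inj {N n : ℕ} : Function.Injective
    (fun z : Fin n × Fin (mm N n) × Bool => pos (N := N) z.1 z.2.1 z.2.2) := by
  rintro ⟨i, c, b⟩ ⟨i', c', b'⟩ h
  have h0 : (i : ℕ) * (2 * mm N n) + (2 * c + if b = true then 1 else 0) =
      i' * (2 * mm N n) + (2 * c' + if b' = true then 1 else 0) := congrArg Fin.val h
  have h1 := c.2
  have h2 := c'.2
  have h3 : 2 * (c : ℕ) + (if b = true then 1 else 0) < 2 * mm N n := by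
    split_ifs <;> omega
  have h4 : 2 * (c' : ℕ) + (if b' = true then 1 else 0) < 2 * mm N n := by
    split_ifs <;> omega
  have hd : ∀ i r : ℕ, r < 2 * mm N n → (i * (2 * mm N n) + r) / (2 * mm N n) = i := by
    intro i r hr
    rw [add_comm, Nat.add_mul_div_right _ _ (by omega), Nat.div_eq_of_lt hr, zero_add]
  have h5 := hd i _ h3
  rw [h0, hd i' _ h4] at h5
  have h6 : i = i' := Fin.ext h5.symm
  subst h6
  have h7 : 2 * (c : ℕ) + (if b = true then 1 else 0) =
      2 * c' + if b' = true then 1 else 0 := by omega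
  have h8 : c = c' := by
    apply Fin.ext
    split_ifs at h7 <;> omega
  subst h8
  cases b <;> cases b' <;> simp_all

/-- the conjunction of the clauses of a block -/
def gad {N n : ℕ} (x : Fin N → Bool) (i : Fin n) : Bool :=
  decide (∀ c : Fin (mm N n), x (pos i c false) = true ∨ x (pos i c true) = true)

/-- the projection given by configurations -/
noncomputable def prj {N n : ℕ} (κ : Fin n → Cf (mm N n)) : Fin N → Bool ⊕ Fin n :=
  Function.extend (fun z : Fin n × Fin (mm N n) × Bool => pos (N := N) z.1 z.2.1 z.2.2)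
    (fun z => if z.2.1 = (κ z.1).1 then
        (if z.2.2 = (κ z.1).2.1 z.2.1 then Sum.inl false else Sum.inr z.1)
      else if z.2.2 = (κ z.1).2.1 z.2.1 then Sum.inl true else Sum.inl ((κ z.1).2.2 z.2.1))
    (fun _ => Sum.inl false)

theorem prj_pos {N n : ℕ} (κ : Fin n → Cf (mm N n)) (i : Fin n) (c : Fin (mm N n)) (b : Bool) :
    prj κ (pos i c b) = if c = (κ i).1 then
        (if b = (κ i).2.1 c then Sum.inl false else Sum.inr i)
      else if b = (κ i).2.1 c then Sum.inl true else Sum.inl ((κ i).2.2 c) :=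
  pos_inj.extend_apply _ _ (i, c, b)

theorem sub_pos {N n : ℕ} (κ : Fin n → Cf (mm N n)) (y : Fin n → Bool) (i : Fin n)
    (c : Fin (mm N n)) (b : Bool) :
    sub (prj κ) y (pos i c b) = if c = (κ i).1 then (if b = (κ i).2.1 c then false else y i)
      else if b = (κ i).2.1 c then true else (κ i).2.2 c := by
  unfold sub
  rw [prj_pos]
  split_ifs <;> rfl

theorem gad_sub {N n : ℕ} (κ : Fin n → Cf (mm N n)) (y : Fin n → Bool) :
    gad (sub (prj κ) y) = y := by
  funext i
  unfold gad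
  have h : (∀ c : Fin (mm N n), sub (prj κ) y (pos i c false) = true ∨
      sub (prj κ) y (pos i c true) = true) ↔ y i = true := by
    constructor
    · intro h
      have h1 := h (κ i).1
      rw [sub_pos, sub_pos, if_pos rfl, if_pos rfl] at h1
      cases hr : (κ i).2.1 (κ i).1 <;> simpa [hr] using h1
    · intro hy c
      rw [sub_pos, sub_pos]
      by_cases hc : c = (κ i).1
      · rw [if_pos hc, if_pos hc]
        cases hr : (κ i).2.1 c <;> simp [hy]
      · rw [if_neg hc, if_neg hc]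
        cases hr : (κ i).2.1 c <;> simp
  cases hy : y i with
  | true => simpa using h.2 hy
  | false =>
    rw [decide_eq_false_iff_not, h, hy]
    simp

theorem sum_sub {N n : ℕ} (κ : Fin n → Cf (mm N n)) (a : Fin N → ℝ) (y : Fin n → Bool) :
    ∑ v, a v * (if sub (prj κ) y v = true then 1 else 0) =
      ∑ i, bv (fun c b => a (pos i c b)) (κ i) (y i) := by
  have h1 : ∑ v, a v * (if sub (prj κ) y v = true then (1 : ℝ) else 0) =
      ∑ z : Fin n × Fin (mm N n) × Bool, a (pos z.1 z.2.1 z.2.2) *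
        (if sub (prj κ) y (pos z.1 z.2.1 z.2.2) = true then 1 else 0) := by
    have h2 := sum_map univ (⟨_, pos_inj (N := N) (n := n)⟩ : Fin n × Fin (mm N n) × Bool ↪ Fin N)
      (fun v => a v * (if sub (prj κ) y v = true then (1 : ℝ) else 0))
    refine Eq.trans ?_ h2
    symm
    apply sum_subset (subset_univ _)
    intro v _ hv
    have h3 : prj κ v = Sum.inl false := by
      apply Function.extend_apply'
      rintro ⟨z, hz⟩
      exact hv (mem_map.2 ⟨z, mem_univ _, hz⟩)
    have h4 : sub (prj κ) y v = false := by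
      unfold sub
      rw [h3]
    rw [h4]
    simp
  rw [h1, Fintype.sum_prod_type]
  refine sum_congr rfl fun i _ => ?_
  rw [Fintype.sum_prod_type]
  unfold bv
  refine sum_congr rfl fun c _ => ?_
  rw [Fintype.sum_bool]
  simp only [sub_pos]
  by_cases hc : c = (κ i).1
  · simp only [if_pos hc]
    cases hr : (κ i).2.1 c <;> cases hy : y i <;> simp
  · simp only [if_neg hc]
    cases hr : (κ i).2.1 c <;> cases hx : (κ i).2.2 c <;> simp [add_comm]

/-- `T` linear threshold functions of the variables, with arbitrary real weights and thresholds -/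
def Thr {N T : ℕ} (help : (Fin N → Bool) → Fin T → Bool) : Prop :=
  ∃ (a : Fin T → Fin N → ℝ) (θ : Fin T → ℝ), ∀ x t, help x t = true ↔
    θ t ≤ ∑ v, a t v * if x v = true then 1 else 0

theorem embT (hA : S_ALL) {N n T : ℕ} (help : (Fin N → Bool) → Fin T → Bool) (hH : Thr help)
    (hn : 2 * (T : ℝ) * n < Real.sqrt (mm N n)) :
    ∃ (σ : Fin N → Bool ⊕ Fin n) (w : Fin T → Bool), (∀ x, gad (sub σ x) = x) ∧
      ∀ x, help (sub σ x) = w := by
  obtain ⟨a, θ, hH⟩ := hH
  obtain ⟨κ, hκ⟩ := hA (mm N n) n T (fun t i c b => a t (pos i c b)) θ hn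
  refine ⟨prj κ, help (sub (prj κ) fun _ => false), gad_sub κ, fun x => funext fun t => ?_⟩
  rw [Bool.eq_iff_iff, hH, hH, sum_sub, sum_sub]
  rcases hκ t with h | h
  · exact ⟨fun _ => h _, fun _ => h _⟩
  · exact ⟨fun h1 => absurd h1 (not_le.2 (h _)), fun h1 => absurd h1 (not_le.2 (h _))⟩

/-- numbers -/
theorem numT (ε : ℝ) (hε : 0 < ε) : ∃ δ : ℝ, 0 < δ ∧ δ ≤ 1 / 8 ∧ ∀ᶠ N : ℕ in atTop,
    ∀ n T : ℕ, 0 < n → (n : ℝ) ≤ (N : ℝ) ^ δ → (T : ℝ) ≤ (N : ℝ) ^ (1 / 2 - ε) →
      2 * (T : ℝ) * n < Real.sqrt (mm N n) := by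
  obtain ⟨δ, hδ⟩ : ∃ δ : ℝ, δ = min (ε / 3) (1 / 8) := ⟨_, rfl⟩
  have h0 : 0 < δ := by
    rw [hδ]
    exact lt_min (by positivity) (by norm_num)
  have h1 : δ ≤ ε / 3 := by rw [hδ]; exact min_le_left _ _
  have h2 : δ ≤ 1 / 8 := by rw [hδ]; exact min_le_right _ _
  refine ⟨δ, h0, h2, ?_⟩
  have hlim : Tendsto (fun N : ℕ => (N : ℝ) ^ (ε / 2)) atTop atTop :=
    (tendsto_rpow_atTop (by positivity)).comp tendsto_natCast_atTop_atTop
  have hlim2 : Tendsto (fun N : ℕ => (N : ℝ) ^ (1 / 2 : ℝ)) atTop atTop :=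
    (tendsto_rpow_atTop (by positivity)).comp tendsto_natCast_atTop_atTop
  filter_upwards [hlim.eventually_gt_atTop 4, hlim2.eventually_ge_atTop 4, eventually_ge_atTop 1]
    with N hN hN2 hN1
  intro n T hn hnN hT
  have hN1' : (1 : ℝ) ≤ N := by exact_mod_cast hN1
  have hN0 : (0 : ℝ) < N := by linarith
  have hn0 : (0 : ℝ) < n := by exact_mod_cast hn
  -- `N / (4 n) ≤ mm N n`
  have h3 : (N : ℝ) / (4 * n) ≤ mm N n := by
    have h4 : (N : ℝ) / (2 * n) - 1 ≤ mm N n := by
      have h5 : N < 2 * n * (N / (2 * n) + 1) := Nat.lt_mul_div_succ N (by positivity)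
      have h6 : (N : ℝ) < 2 * n * ((mm N n : ℕ) + 1) := by
        unfold mm
        exact_mod_cast h5
      rw [sub_le_iff_le_add, div_le_iff₀ (by positivity)]
      linarith
    have h5 : 1 ≤ (N : ℝ) / (4 * n) := by
      rw [le_div_iff₀ (by positivity)]
      have h6 : (N : ℝ) ^ δ ≤ (N : ℝ) ^ (1 / 2 : ℝ) :=
        Real.rpow_le_rpow_of_exponent_le hN1' (by linarith)
      have h7 : (N : ℝ) = (N : ℝ) ^ (1 / 2 : ℝ) * (N : ℝ) ^ (1 / 2 : ℝ) := by
        rw [← Real.rpow_add hN0]
        norm_num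
      nlinarith
    have h6 : (N : ℝ) / (2 * n) = N / (4 * n) + N / (4 * n) := by
      field_simp
      ring
    linarith
  refine lt_of_lt_of_le ?_ (Real.sqrt_le_sqrt h3)
  apply Real.lt_sqrt_of_sq_lt
  rw [lt_div_iff₀ (by positivity)]
  have h5 : (T : ℝ) ^ 2 ≤ (N : ℝ) ^ (1 - 2 * ε) := by
    calc (T : ℝ) ^ 2 ≤ ((N : ℝ) ^ (1 / 2 - ε)) ^ 2 := pow_le_pow_left₀ (by positivity) hT 2
      _ = (N : ℝ) ^ (1 - 2 * ε) := by
        rw [← Real.rpow_natCast, ← Real.rpow_mul hN0.le]
        congr 1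
        push_cast
        ring
  have h6 : (n : ℝ) ^ 3 ≤ (N : ℝ) ^ ε := by
    calc (n : ℝ) ^ 3 ≤ ((N : ℝ) ^ δ) ^ 3 := pow_le_pow_left₀ (by positivity) hnN 3
      _ = (N : ℝ) ^ (3 * δ) := by
        rw [← Real.rpow_natCast, ← Real.rpow_mul hN0.le]
        congr 1
        push_cast
        ring
      _ ≤ (N : ℝ) ^ ε := Real.rpow_le_rpow_of_exponent_le hN1' (by linarith)
  have h7 : (N : ℝ) = (N : ℝ) ^ (1 - 2 * ε) * (N : ℝ) ^ ε * ((N : ℝ) ^ (ε / 2) * (N : ℝ) ^ (ε / 2)) := by
    rw [← Real.rpow_add hN0, ← Real.rpow_add hN0, ← Real.rpow_add hN0]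
    ring_nf
    rw [Real.rpow_one]
  calc (2 * (T : ℝ) * n) ^ 2 * (4 * n) = 16 * ((T : ℝ) ^ 2 * (n : ℝ) ^ 3) := by ring
    _ ≤ 16 * ((N : ℝ) ^ (1 - 2 * ε) * (N : ℝ) ^ ε) := by
      have := mul_le_mul h5 h6 (by positivity) (by positivity)
      linarith
    _ < (N : ℝ) ^ (1 - 2 * ε) * (N : ℝ) ^ ε * ((N : ℝ) ^ (ε / 2) * (N : ℝ) ^ (ε / 2)) := by
      rw [mul_comm 16]
      apply mul_lt_mul_of_pos_left _ (by positivity)
      nlinarith
    _ = N := h7.symm

theorem transferT (hA : S_ALL) (ε : ℝ) (hε : 0 < ε) : ∃ δ : ℝ, 0 < δ ∧ δ ≤ 1 / 8 ∧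
    ∀ᶠ N : ℕ in atTop, ∀ (n T : ℕ), 0 < n → ∀ help : (Fin N → Bool) → Fin T → Bool,
      (n : ℝ) ≤ (N : ℝ) ^ δ → (T : ℝ) ≤ (N : ℝ) ^ (1 / 2 - ε) → Thr help →
      ∃ (σ : Fin N → Bool ⊕ Fin n) (w : Fin T → Bool), (∀ x, gad (sub σ x) = x) ∧
        ∀ x, help (sub σ x) = w := by
  obtain ⟨δ, h1, h2, h3⟩ := numT ε hε
  refine ⟨δ, h1, h2, ?_⟩
  filter_upwards [h3] with N h n T hn help hnN hT hH
  exact embT hA help hH (h n T hn hnN hT)

/-! ### Circuits for the gadgets -/

theorem gad_prog {N n : ℕ} (i : Fin n) {L0 : List ((Fin N → Bool) → Bool)}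
    (h0 : MProg (VB (Fin N)) L0) (l : List (Fin (mm N n))) :
    ∃ L : List ((Fin N → Bool) → Bool), MProg (VB (Fin N)) (L ++ L0) ∧ L.length ≤ 2 * l.length ∧
      Av (VB (Fin N)) (L ++ L0)
        (fun x => decide (∀ c ∈ l, x (pos i c false) = true ∨ x (pos i c true) = true)) := by
  induction l with
  | nil => exact ⟨[], by simpa using h0, by simp, Or.inl (Or.inl ⟨true, by simp⟩)⟩
  | cons c l ih =>
    obtain ⟨L, hL, hl, hav⟩ := ih
    have h1 : MProg (VB (Fin N)) ((fun x => x (pos i c false) || x (pos i c true)) :: (L ++ L0)) :=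
      MProg.or hL (Or.inl (Or.inr ⟨_, rfl⟩)) (Or.inl (Or.inr ⟨_, rfl⟩))
    have h2 := MProg.and h1 (Or.inr List.mem_cons_self) (hav.cons _)
    refine ⟨_ :: _ :: L, h2, by simp; omega, ?_⟩
    have e : (fun x : Fin N → Bool => decide (∀ c' ∈ c :: l, x (pos i c' false) = true ∨
        x (pos i c' true) = true)) = fun x => (x (pos i c false) || x (pos i c true)) &&
          decide (∀ c ∈ l, x (pos i c false) = true ∨ x (pos i c true) = true) := by
      funext x
      rw [Bool.eq_iff_iff]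
      simp
    rw [e]
    exact Or.inr (by simp)

theorem gad_prog' (N n : ℕ) : ∃ L : List ((Fin N → Bool) → Bool),
    MProg (VB (Fin N)) L ∧ L.length ≤ N ∧ ∀ i : Fin n, Av (VB (Fin N)) L (fun x => gad x i) := by
  have key : ∀ s : Finset (Fin n), ∃ L : List ((Fin N → Bool) → Bool),
      MProg (VB (Fin N)) L ∧ L.length ≤ s.card * (2 * mm N n) ∧
      ∀ i ∈ s, Av (VB (Fin N)) L (fun x => gad x i) := by
    intro s
    induction s using Finset.induction_on with
    | empty => exact ⟨[], MProg.nil, by simp, by simp⟩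
    | insert i s hi ih =>
      obtain ⟨L0, hL0, hl0, hav0⟩ := ih
      obtain ⟨L, hL, hl, hav⟩ := gad_prog i hL0 (univ : Finset (Fin (mm N n))).toList
      refine ⟨L ++ L0, hL, ?_, ?_⟩
      · rw [card_insert_of_notMem hi, List.length_append, Nat.add_mul, Nat.one_mul]
        rw [length_toList, card_univ, Fintype.card_fin] at hl
        omega
      · intro j hj
        rcases mem_insert.1 hj with rfl | hj
        · have e : (fun x : Fin N → Bool => gad x j) = fun x => decide (∀ c ∈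
              (univ : Finset (Fin (mm N n))).toList, x (pos j c false) = true ∨
                x (pos j c true) = true) := by
            funext x
            unfold gad
            simp
          rw [e]
          exact hav
        · exact (hav0 j hj).mono L
  obtain ⟨L, h1, h2, h3⟩ := key univ
  refine ⟨L, h1, h2.trans ?_, fun i => h3 i (mem_univ i)⟩
  rw [card_univ, Fintype.card_fin]
  unfold mm
  calc n * (2 * (N / (2 * n))) = 2 * n * (N / (2 * n)) := by ring
    _ ≤ N := Nat.mul_div_le N (2 * n)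

theorem gad_shallow {N n : ℕ} (i : Fin n) :
    Shallow (Nat.log 2 N + 2) (fun x : Fin N → Bool => gad x i = true) := by
  have h1 : ∀ c : Fin (mm N n), Shallow 1 (fun x : Fin N → Bool =>
      x (pos i c false) = true ∨ x (pos i c true) = true) := fun c =>
    ⟨_, _, Or.inr ⟨pos i c false, fun x => Iff.rfl⟩, Or.inr ⟨pos i c true, fun x => Iff.rfl⟩,
      Or.inr fun x => Iff.rfl⟩
  rcases Nat.eq_zero_or_pos (mm N n) with h0 | h0
  · refine Shallow.lift (d := 0) (Or.inl ⟨True, fun x => ?_⟩) (Nat.zero_le _)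
    show gad x i = true ↔ True
    unfold gad
    rw [decide_eq_true_iff]
    constructor
    · intro _
      trivial
    · intro _ c
      have := c.2
      omega
  · have hc : Fintype.card (Fin (mm N n)) ≤ Fintype.card (Fin (Nat.log 2 N + 1) → Bool) := by
      simp only [Fintype.card_fun, Fintype.card_fin, Fintype.card_bool]
      refine le_trans ?_ (Nat.lt_pow_succ_log_self (by norm_num) N).le
      exact Nat.div_le_self _ _
    obtain ⟨e⟩ := Function.Embedding.nonempty_of_card_le hc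
    have : Nonempty (Fin (mm N n)) := ⟨⟨0, h0⟩⟩
    have h2 := Shallow.all fun u : Fin (Nat.log 2 N + 1) → Bool => h1 (Function.invFun e u)
    refine (h2.congr fun x => ?_).lift (by omega)
    unfold gad
    rw [decide_eq_true_iff]
    constructor
    · intro h c
      have h3 := h (e c)
      rwa [Function.leftInverse_invFun e.injective] at h3
    · intro h u
      exact h _

end Pool.Agent.J6H11.Ltf
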