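import Pool.Agent.J6H11.Ltf.Gen
import Pool.Agent.J6H11.Ltf.Tr
import Pool.Agent.J6H11.Ltf.LO
import Pool.Agent.J6H11.Ltf.CB
import Pool.Agent.J6H11.Ltf.BLK
import Pool.Agent.J6H11.Ltf.ALL

/-!
# Lower bounds for devices with linear threshold functions as additional inputs
-/

set_option autoImplicit false
set_option linter.unusedSectionVars false

namespace Pool.Agent.J6H11.Ltf

open Finset Filter Pool.Agent.J6H27.MPH Pool.Agent.J6H7.Chain Pool.Agent.H520R2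
  Pool.Agent.H520R2.NM Pool.Agent.J6H11.Hlp

theorem all_const : S_ALL := t_ALL (t_BLK t_LO t_CB)

theorem gd_gad (δ : ℝ) : Gd δ (fun N => gad (N := N) (n := nn δ N)) where
  prog N := by
    obtain ⟨L, h1, h2, h3⟩ := gad_prog' N (nn δ N)
    refine ⟨L, h1, h2.trans ?_, h3⟩
    rcases Nat.eq_zero_or_pos N with rfl | h
    · simp
    · nlinarith
  form N i := (gad_shallow i).lift (by nlinarith)

theorem thr_good (ε : ℝ) (hε : 0 < ε) : ∃ δ1 : ℝ, 0 < δ1 ∧ δ1 ≤ 1 / 8 ∧ ∀ᶠ N : ℕ in atTop,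
    ∀ (T : ℕ) (help : (Fin N → Bool) → Fin T → Bool), (T : ℝ) ≤ (N : ℝ) ^ (1 / 2 - ε) →
      Thr help → Good (gad (N := N) (n := nn δ1 N)) help := by
  obtain ⟨δ1, h1, h2, h3⟩ := transferT all_const ε hε
  refine ⟨δ1, h1, h2, ?_⟩
  filter_upwards [h3, (nn_tendsto h1).eventually_gt_atTop 0] with N h hn T help hT hH
  exact h _ T hn help (nn_le δ1 N) hT hH

/-- time and space -/
theorem incomp_thr (ε : ℝ) (hε : 0 < ε) : ∃ δ : ℝ, 0 < δ ∧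
    (∀ᶠ N : ℕ in atTop, ∃ h : (Fin N → Bool) → Prop,
      (∃ C : (Fin N → Bool) → Bool, MComp (VB (Fin N)) (N ^ 3) C ∧ ∀ x, h x ↔ C x = true) ∧
      ∀ (T : ℕ) (help : (Fin N → Bool) → Fin T → Bool) (l : (Fin T → Bool) → List ℕ)
        (V : (Fin T → Bool) → Type) (S : ∀ v, Strategy (Net (V v) (Fin N)) (l v)) (s : ℕ),
        (T : ℝ) ≤ (N : ℝ) ^ (1 / 2 - ε) → Thr help →
        (∀ v, ((((l v).map (· + 1)).prod : ℕ) : ℝ) ≤ (N : ℝ) ^ δ) →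
        (∀ v, (S v).All fun d => d.size ≤ s) →
        (∀ x, (S (help x)).run Net.Directed x ↔ h x) → (2 : ℝ) ^ ((N : ℝ) ^ δ) ≤ s) ∧
    ∃ f : ∀ N : ℕ, (Fin N → Bool) → Prop,
      (∀ᶠ N : ℕ in atTop, Shallow (Nat.log 2 N ^ 3) (f N)) ∧
      ∀ c : ℕ, ∀ᶠ N : ℕ in atTop, ∀ (T : ℕ) (help : (Fin N → Bool) → Fin T → Bool) (k g : ℕ)
        (l : (Fin T → Bool) → List ℕ) (S : ∀ v, Strategy
          {d : (Fin N → Bool) → Prop // Level g (N ^ c) k true d ∨ Level g (N ^ c) k false d} (l v)),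
        (T : ℝ) ≤ (N : ℝ) ^ (1 / 2 - ε) → Thr help →
        2 * k ≤ Nat.log 2 (Nat.log 2 N) → 1 ≤ g →
        (∀ v, ((((l v).map (· + 1)).prod * ((l v).sum + 1) * g ^ (k + 1) : ℕ) : ℝ) ≤
          (N : ℝ) ^ δ) →
        ¬ ∀ x, (S (help x)).run (fun d x => d.1 x) x ↔ f N x := by
  obtain ⟨δ1, h1, h2, h3⟩ := thr_good ε hε
  obtain ⟨δ2, h4, h5⟩ := space_gen h1 h2 (gd_gad δ1)
  obtain ⟨δ3, h6, h7⟩ := beyond_gen h1 h2 (gd_gad δ1)
  have h8 : 0 < min δ2 δ3 := lt_min h4 h6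
  refine ⟨min δ2 δ3, h8, ?_, ?_⟩
  · filter_upwards [h3, h5 _ h8 (min_le_left _ _)] with N hg ⟨h, hC, hl⟩
    refine ⟨h, hC, ?_⟩
    intro T help l V S s hT hH hl' hs hr
    exact hl (Fin T → Bool) help l V S s (hg T help hT hH) hl' hs hr
  · obtain ⟨f, hf1, hf2⟩ := h7 _ h8 (min_le_right _ _)
    refine ⟨f, hf1, fun c => ?_⟩
    filter_upwards [h3, hf2 c] with N hg hl
    intro T help k g l S hT hH hk hg1 hl'
    exact hl (Fin T → Bool) help k g l S (hg T help hT hH) hk hg1 hl'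

end Pool.Agent.J6H11.Ltf
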