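import Pool.Agent.J6H11.Hlp.Incomp
import Pool.Agent.J6H11.Hlp.Amh

/-!
# Transfer of lower bounds along gadgets, for any kind of help
-/

set_option autoImplicit false
set_option linter.unusedSectionVars false

namespace Pool.Agent.J6H11.Ltf

open Finset Filter Pool.Agent.J6H27.MPH Pool.Agent.J6H7.Chain Pool.Agent.H520R2
  Pool.Agent.H520R2.NM Pool.Agent.J6H11.Hlp

/-- there is a projection which keeps the gadgets and makes the help constant -/
def Good {N n : ℕ} (G : (Fin N → Bool) → Fin n → Bool) {W : Type}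
    (help : (Fin N → Bool) → W) : Prop :=
  ∃ (σ : Fin N → Bool ⊕ Fin n) (w : W), (∀ x, G (sub σ x) = x) ∧ ∀ x, help (sub σ x) = w

/-- the gadgets are simple -/
structure Gd (δ : ℝ) (G : ∀ N : ℕ, (Fin N → Bool) → Fin (nn δ N) → Bool) : Prop where
  prog : ∀ N : ℕ, ∃ L : List ((Fin N → Bool) → Bool), MProg (VB (Fin N)) L ∧
    L.length ≤ 2 * N * N ∧ ∀ i, Av (VB (Fin N)) L (fun x => G N x i)
  form : ∀ (N : ℕ) (i : Fin (nn δ N)), Shallow ((Nat.log 2 N + 2) ^ 2)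
    (fun x : Fin N → Bool => G N x i = true)

theorem pw {δ1 : ℝ} {N : ℕ} (hN : 1 ≤ N) (hge : (N : ℝ) ^ (δ1 / 2) ≤ nn δ1 N) (e : ℝ)
    (he : 0 ≤ e) : (N : ℝ) ^ (δ1 / 2 * e) ≤ (nn δ1 N : ℝ) ^ e := by
  have hN0 : (0 : ℝ) < N := by exact_mod_cast hN
  rw [Real.rpow_mul hN0.le]
  exact Real.rpow_le_rpow (by positivity) hge he

theorem szs {δ1 : ℝ} (hδ1 : 0 < δ1) {c c' : ℕ} (hc' : 2 * (c : ℝ) / δ1 ≤ c') {N : ℕ} (hN : 1 ≤ N)
    (hge : (N : ℝ) ^ (δ1 / 2) ≤ nn δ1 N) : N ^ c ≤ nn δ1 N ^ c' := by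
  have hN1 : (1 : ℝ) ≤ N := by exact_mod_cast hN
  have h2 : (N : ℝ) ^ c ≤ (nn δ1 N : ℝ) ^ c' := by
    rw [← Real.rpow_natCast, ← Real.rpow_natCast]
    refine le_trans ?_ (pw hN hge c' (by positivity))
    apply Real.rpow_le_rpow_of_exponent_le hN1
    rw [div_le_iff₀ hδ1] at hc'
    linarith
  exact_mod_cast h2

variable {δ1 : ℝ} {G : ∀ N : ℕ, (Fin N → Bool) → Fin (nn δ1 N) → Bool}

theorem space_gen (hδ1 : 0 < δ1) (hδ18 : δ1 ≤ 1 / 8) (hG : Gd δ1 G) :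
    ∃ δ0 : ℝ, 0 < δ0 ∧ ∀ δ : ℝ, 0 < δ → δ ≤ δ0 → ∀ᶠ N : ℕ in atTop,
      ∃ h : (Fin N → Bool) → Prop,
        (∃ C : (Fin N → Bool) → Bool, MComp (VB (Fin N)) (N ^ 3) C ∧ ∀ x, h x ↔ C x = true) ∧
        ∀ (W : Type) (help : (Fin N → Bool) → W) (l : W → List ℕ) (V : W → Type)
          (S : ∀ v, Strategy (Net (V v) (Fin N)) (l v)) (s : ℕ), Good (G N) help →
          (∀ v, ((((l v).map (· + 1)).prod : ℕ) : ℝ) ≤ (N : ℝ) ^ δ) →
          (∀ v, (S v).All fun d => d.size ≤ s) →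
          (∀ x, (S (help x)).run Net.Directed x ↔ h x) → (2 : ℝ) ^ ((N : ℝ) ^ δ) ≤ s := by
  obtain ⟨c0, hc0, hres⟩ := Pool.Agent.Results.MP_9dcf40_lc.FewNegationsIncomparable.result
    (1 / 2) (by norm_num)
  refine ⟨δ1 / 2 * min c0 (1 / 2), mul_pos (by positivity) (lt_min hc0 (by norm_num)), ?_⟩
  intro δ hδpos hδ
  filter_upwards [(nn_tendsto hδ1).eventually hres, (nn_tendsto hδ1).eventually_gt_atTop 0,
      nn_ge hδ1, eventually_ge_atTop 3] with N h1 hn hge hN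
  have hN1 : (1 : ℝ) ≤ N := by exact_mod_cast (by omega : 1 ≤ N)
  have hnN : nn δ1 N ≤ N := nn_le_self (by linarith) (by omega)
  obtain ⟨⟨R, s, t, -, hC, hS, -⟩, -⟩ := h1
  refine ⟨fun x => Derive R s t (G N x), ?_, ?_⟩
  · classical
    obtain ⟨L, hL1, hL2, hL3⟩ := hG.prog N
    refine ⟨_, MComp.smono (MComp.precomp hL1 hL3 hC) ?_, ?_⟩
    · have h6 : 3 * N ^ 2 ≤ N ^ 3 := by
        rw [pow_succ N 2, mul_comm]
        exact Nat.mul_le_mul_left _ hN
      have h7 : 3 * N ≤ N ^ 2 := by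
        rw [sq]
        exact Nat.mul_le_mul_right _ hN
      nlinarith
    · intro x
      simp
  · intro W help l V St m ⟨σ, v, hσ, hv⟩ hl hSt hrun
    have hmin1 : (N : ℝ) ^ δ ≤ (nn δ1 N : ℝ) ^ c0 := by
      refine le_trans ?_ (pw (by omega) hge c0 hc0.le)
      apply Real.rpow_le_rpow_of_exponent_le hN1
      refine hδ.trans ?_
      exact mul_le_mul_of_nonneg_left (min_le_left _ _) (by positivity)
    have hmin2 : (N : ℝ) ^ δ ≤ (nn δ1 N : ℝ) ^ (1 - 1 / 2 : ℝ) := by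
      refine le_trans ?_ (pw (by omega) hge _ (by norm_num))
      apply Real.rpow_le_rpow_of_exponent_le hN1
      refine hδ.trans ?_
      refine mul_le_mul_of_nonneg_left ((min_le_right _ _).trans (by norm_num)) (by positivity)
    have h2 := hS (l v) ((hl v).trans hmin2) m (V v) (Hlp.smap (netSub σ) (St v))
      (Hlp.smap_all (fun d hd => (netSub_size σ d).trans hd) _ (hSt v)) ?_
    · exact le_trans (Real.rpow_le_rpow_of_exponent_le (by norm_num) hmin1) h2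
    · intro x
      refine (Hlp.smap_run (φ := netSub σ) (τ := sub σ) (fun d x => netSub_directed σ d x)
        (St v) x).trans ?_
      have h3 := hrun (sub σ x)
      rw [hv] at h3
      refine h3.trans ?_
      show Derive R s t (G N (sub σ x)) ↔ _
      rw [hσ]

theorem beyond_gen (hδ1 : 0 < δ1) (hδ18 : δ1 ≤ 1 / 8) (hG : Gd δ1 G) :
    ∃ δ0 : ℝ, 0 < δ0 ∧ ∀ δ : ℝ, 0 < δ → δ ≤ δ0 → ∃ f : ∀ N : ℕ, (Fin N → Bool) → Prop,
      (∀ᶠ N : ℕ in atTop, Shallow (Nat.log 2 N ^ 3) (f N)) ∧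
      ∀ c : ℕ, ∀ᶠ N : ℕ in atTop, ∀ (W : Type) (help : (Fin N → Bool) → W) (k g : ℕ)
        (l : W → List ℕ) (S : ∀ v, Strategy
          {d : (Fin N → Bool) → Prop // Level g (N ^ c) k true d ∨ Level g (N ^ c) k false d} (l v)),
        Good (G N) help → 2 * k ≤ Nat.log 2 (Nat.log 2 N) → 1 ≤ g →
        (∀ v, ((((l v).map (· + 1)).prod * ((l v).sum + 1) * g ^ (k + 1) : ℕ) : ℝ) ≤
          (N : ℝ) ^ δ) →
        ¬ ∀ x, (S (help x)).run (fun d x => d.1 x) x ↔ f N x := by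
  obtain ⟨f, hup, hlow⟩ := polylog_beyond
  refine ⟨δ1 / 2 * (1 / 2), by positivity, ?_⟩
  intro δ hδpos hδ
  refine ⟨fun N x => f (nn δ1 N) (G N x), ?_, ?_⟩
  · filter_upwards [(nn_tendsto hδ1).eventually hup, (nn_tendsto hδ1).eventually_gt_atTop 0,
      eventually_ge_atTop 16] with N h1 hn hN
    have hN1 : (1 : ℝ) ≤ N := by exact_mod_cast (by omega : 1 ≤ N)
    have hnN : nn δ1 N ^ 2 ≤ N := by
      have h2 : ((N : ℝ) ^ δ1) ^ 2 ≤ (N : ℝ) ^ (1 : ℝ) := by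
        rw [← Real.rpow_natCast, ← Real.rpow_mul (by linarith)]
        exact Real.rpow_le_rpow_of_exponent_le hN1 (by push_cast; linarith)
      rw [Real.rpow_one] at h2
      have h3 : (nn δ1 N : ℝ) ^ 2 ≤ ((N : ℝ) ^ δ1) ^ 2 :=
        pow_le_pow_left₀ (by positivity) (nn_le δ1 N) 2
      exact_mod_cast h3.trans h2
    have hlog : 2 * Nat.log 2 (nn δ1 N) ≤ Nat.log 2 N := by
      apply Nat.le_log_of_pow_le (by norm_num)
      refine le_trans ?_ hnN
      rw [mul_comm, pow_mul]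
      exact Nat.pow_le_pow_left (Nat.pow_log_le_self 2 hn.ne') 2
    have hL4 : 4 ≤ Nat.log 2 N := Nat.le_log_of_pow_le (by norm_num) (by simpa using hN)
    refine (Shallow.precomp (fun i => hG.form N i) h1.1).lift ?_
    generalize hA : Nat.log 2 (nn δ1 N) = A at *
    generalize hB : Nat.log 2 N = B at *
    have h5 : 8 * A ^ 3 ≤ B ^ 3 := by
      calc 8 * A ^ 3 = (2 * A) ^ 3 := by ring
        _ ≤ B ^ 3 := Nat.pow_le_pow_left hlog 3
    have h6 : 8 * (B + 2) ^ 2 ≤ 7 * B ^ 3 := by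
      obtain ⟨C, rfl⟩ := Nat.exists_eq_add_of_le hL4
      nlinarith [Nat.zero_le (C ^ 3), Nat.zero_le (C ^ 2)]
    omega
  · intro c
    obtain ⟨c', hc'⟩ := exists_nat_ge (2 * c / δ1)
    obtain ⟨K, hK⟩ := exists_nat_ge (2 / δ1)
    filter_upwards [(nn_tendsto hδ1).eventually (hlow c' (1 / 2) (by norm_num)),
      (nn_tendsto hδ1).eventually_gt_atTop 0, nn_ge hδ1,
      eventually_ge_atTop (2 ^ (K ^ 2))] with N h1 hn hge hN
    intro W help k g l S ⟨σ, v, hσ, hv⟩ hk hg hl hS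
    have hN1' : 1 ≤ N := (Nat.one_le_two_pow).trans hN
    have hN1 : (1 : ℝ) ≤ N := by exact_mod_cast hN1'
    have hsize : N ^ c ≤ nn δ1 N ^ c' := szs hδ1 hc' hN1' hge
    have hmin2 : (N : ℝ) ^ δ ≤ (nn δ1 N : ℝ) ^ (1 - 1 / 2 : ℝ) := by
      refine le_trans ?_ (pw hN1' hge _ (by norm_num))
      apply Real.rpow_le_rpow_of_exponent_le hN1
      refine hδ.trans ?_
      exact mul_le_mul_of_nonneg_left (by norm_num) (by positivity)
    have hkn : k ≤ Nat.log 2 (Nat.log 2 (nn δ1 N)) := by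
      have hL0 : Nat.log 2 N ≠ 0 ∨ k = 0 := by
        by_cases h0 : Nat.log 2 N = 0
        · right
          rw [h0] at hk
          simp at hk
          omega
        · exact Or.inl h0
      rcases hL0 with hL0 | hL0
      · apply Nat.le_log_of_pow_le (by norm_num)
        apply Nat.le_log_of_pow_le (by norm_num)
        have hLK : K ^ 2 ≤ Nat.log 2 N := Nat.le_log_of_pow_le (by norm_num) hN
        have h4k : 2 ^ k * 2 ^ k ≤ Nat.log 2 N := by
          rw [← pow_add, ← two_mul]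
          exact Nat.pow_le_of_le_log hL0 hk
        -- `2 ^ k * K ≤ log N`
        have h5 : 2 ^ k * K ≤ Nat.log 2 N := by
          rcases Nat.le_total (2 ^ k) K with h | h
          · exact (Nat.mul_le_mul_right K h).trans (by rw [← sq]; exact hLK)
          · exact (Nat.mul_le_mul_left _ h).trans h4k
        have h6 : ((2 ^ k : ℕ) : ℝ) ≤ Nat.log 2 N * (δ1 / 2) := by
          have h7 : ((2 ^ k : ℕ) : ℝ) * (2 / δ1) ≤ Nat.log 2 N := by
            refine (mul_le_mul_of_nonneg_left hK (Nat.cast_nonneg _)).trans ?_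
            exact_mod_cast h5
          rw [mul_div_assoc', div_le_iff₀ hδ1] at h7
          linarith
        have h8 : ((2 ^ (2 ^ k) : ℕ) : ℝ) ≤ nn δ1 N := by
          refine le_trans ?_ hge
          have h9 : ((2 : ℝ) ^ (Nat.log 2 N : ℝ)) ^ (δ1 / 2) ≤ (N : ℝ) ^ (δ1 / 2) := by
            apply Real.rpow_le_rpow (by positivity) _ (by positivity)
            rw [Real.rpow_natCast]
            exact_mod_cast Nat.pow_log_le_self 2 (by
              rintro rfl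
              simp at hL0)
          refine le_trans ?_ h9
          rw [← Real.rpow_mul (by norm_num)]
          push_cast
          rw [← Real.rpow_natCast]
          exact Real.rpow_le_rpow_of_exponent_le (by norm_num) (by exact_mod_cast h6)
        exact_mod_cast h8
      · rw [hL0]
        exact Nat.zero_le _
    let φ : {d : (Fin N → Bool) → Prop // Level g (N ^ c) k true d ∨ Level g (N ^ c) k false d} →
        {d : (Fin (nn δ1 N) → Bool) → Prop // Level g (nn δ1 N ^ c') k true d ∨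
          Level g (nn δ1 N ^ c') k false d} := fun d =>
      ⟨fun x => d.1 (sub σ x), d.2.imp (fun h => Level.smono hsize (h.subst σ))
        (fun h => Level.smono hsize (h.subst σ))⟩
    refine (h1 k g hkn hg).2 (l v) (Hlp.smap φ (S v)) ((hl v).trans hmin2) fun x => ?_
    have h2 := Hlp.smap_run (φ := φ) (acc := fun d x => d.1 x) (acc' := fun d x => d.1 x)
      (τ := sub σ) (fun d x => Iff.rfl) (S v) x
    refine h2.trans ?_
    have h3 := hS (sub σ x)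
    rw [hv] at h3
    refine h3.trans ?_
    show f (nn δ1 N) (G N (sub σ x)) ↔ _
    rw [hσ]

theorem hier_gen (hδ1 : 0 < δ1) (hδ18 : δ1 ≤ 1 / 8) (hG : Gd δ1 G) (m : ℕ) :
    ∃ δ0 : ℝ, 0 < δ0 ∧ ∀ δ : ℝ, 0 < δ → δ ≤ δ0 → ∃ f : ∀ N : ℕ, (Fin N → Bool) → Prop,
      (∀ᶠ N : ℕ in atTop, Level (Nat.log 2 N ^ 3) (N ^ 3) (m + 1) true (f N)) ∧
      ∀ c : ℕ, ∀ᶠ N : ℕ in atTop, ∀ (W : Type) (help : (Fin N → Bool) → W) (g : ℕ)
        (l : W → List ℕ) (S : ∀ v, Strategy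
          {d : (Fin N → Bool) → Prop // Level g (N ^ c) m true d ∨ Level g (N ^ c) m false d} (l v)),
        Good (G N) help → (g : ℝ) ≤ (N : ℝ) ^ δ →
        (∀ v, ((((l v).map (· + 1)).prod * ((l v).sum + 1) : ℕ) : ℝ) ≤ (N : ℝ) ^ δ) →
        ¬ ∀ x, (S (help x)).run (fun d x => d.1 x) x ↔ f N x := by
  obtain ⟨δ0, f, hδ0, hup, hlow⟩ := hierarchy m (1 / 2) (by norm_num)
  refine ⟨δ1 / 2 * min δ0 (1 / 2), mul_pos (by positivity) (lt_min hδ0 (by norm_num)), ?_⟩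
  intro δ hδpos hδ
  refine ⟨fun N x => f (nn δ1 N) (G N x), ?_, ?_⟩
  · filter_upwards [(nn_tendsto hδ1).eventually hup, eventually_ge_atTop 3] with N h1 hN
    have hnN : nn δ1 N ≤ N := nn_le_self (by linarith) (by omega)
    obtain ⟨L, hL1, hL2, hL3⟩ := hG.prog N
    have hlog : Nat.log 2 (nn δ1 N) ^ 3 ≤ Nat.log 2 N ^ 3 :=
      Nat.pow_le_pow_left (Nat.log_mono_right hnN) 3
    exact Level.smono (gates_le hN hnN hL2) ((Level.precomp hL1 hL3 h1).gmono hlog)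
  · intro c
    obtain ⟨c', hc'⟩ := exists_nat_ge (2 * c / δ1)
    filter_upwards [(nn_tendsto hδ1).eventually (hlow c'), nn_ge hδ1, eventually_ge_atTop 1]
      with N h1 hge hN
    intro W help g l S ⟨σ, v, hσ, hv⟩ hg hl hS
    have hN1 : (1 : ℝ) ≤ N := by exact_mod_cast hN
    have hsize : N ^ c ≤ nn δ1 N ^ c' := szs hδ1 hc' hN hge
    have hmin1 : (N : ℝ) ^ δ ≤ (nn δ1 N : ℝ) ^ δ0 := by
      refine le_trans ?_ (pw hN hge δ0 hδ0.le)
      apply Real.rpow_le_rpow_of_exponent_le hN1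
      exact hδ.trans (mul_le_mul_of_nonneg_left (min_le_left _ _) (by positivity))
    have hmin2 : (N : ℝ) ^ δ ≤ (nn δ1 N : ℝ) ^ (1 - 1 / 2 : ℝ) := by
      refine le_trans ?_ (pw hN hge _ (by norm_num))
      apply Real.rpow_le_rpow_of_exponent_le hN1
      refine hδ.trans ?_
      refine mul_le_mul_of_nonneg_left ((min_le_right _ _).trans (by norm_num)) (by positivity)
    let φ : {d : (Fin N → Bool) → Prop // Level g (N ^ c) m true d ∨ Level g (N ^ c) m false d} →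
        {d : (Fin (nn δ1 N) → Bool) → Prop // Level g (nn δ1 N ^ c') m true d ∨
          Level g (nn δ1 N ^ c') m false d} := fun d =>
      ⟨fun x => d.1 (sub σ x), d.2.imp (fun h => Level.smono hsize (h.subst σ))
        (fun h => Level.smono hsize (h.subst σ))⟩
    refine h1 g (l v) (Hlp.smap φ (S v)) (hg.trans hmin1) ((hl v).trans hmin2) fun x => ?_
    have h2 := Hlp.smap_run (φ := φ) (acc := fun d x => d.1 x) (acc' := fun d x => d.1 x)
      (τ := sub σ) (fun d x => Iff.rfl) (S v) x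
    refine h2.trans ?_
    have h3 := hS (sub σ x)
    rw [hv] at h3
    refine h3.trans ?_
    show f (nn δ1 N) (G N (sub σ x)) ↔ _
    rw [hσ]

theorem game_mono {g s s' : ℕ} {ι : Type} (hs : s ≤ s') : ∀ {k : ℕ} {u : (ι → Bool) → ℝ},
    Game g s k u → Game g s' k u := by
  intro k
  induction k with
  | zero =>
    rintro u ⟨Ω, i, p, C, h0, h1, hC, hv⟩
    exact ⟨Ω, i, p, C, h0, h1, fun ω => MComp.smono (hC ω) hs, hv⟩
  | succ k ih =>
    rintro u ⟨Ω, i, p, D, h0, h1, hD, hv⟩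
    exact ⟨Ω, i, p, D, h0, h1, fun ω u => ih (hD ω u), hv⟩

theorem game_gen (hδ1 : 0 < δ1) (hδ18 : δ1 ≤ 1 / 8) (hG : Gd δ1 G) (k : ℕ) :
    ∃ δ0 : ℝ, 0 < δ0 ∧ ∀ δ : ℝ, 0 < δ → δ ≤ δ0 → ∃ f : ∀ N : ℕ, (Fin N → Bool) → Prop,
      (∀ᶠ N : ℕ in atTop, Level (Nat.log 2 N ^ 3) (N ^ 3) 1 false (f N)) ∧
      ∀ c : ℕ, ∀ᶠ N : ℕ in atTop, ∀ (W : Type) (help : (Fin N → Bool) → W) (g : ℕ)
        (v : W → (Fin N → Bool) → ℝ), Good (G N) help →
        (g : ℝ) ≤ (N : ℝ) ^ δ → (∀ w, Game g (N ^ c) k (v w)) →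
        ∀ α : ℝ, ¬ ((∀ x, f N x → α + (N : ℝ) ^ (-δ) ≤ v (help x) x) ∧
          ∀ x, ¬ f N x → v (help x) x ≤ α) := by
  obtain ⟨f, hup, hlow⟩ := am_rounds (fun _ => k) (by
    have h1 : Tendsto (fun N : ℕ => Nat.log 2 (Nat.log 2 N)) atTop atTop :=
      tendsto_log.comp tendsto_log
    filter_upwards [h1.eventually (eventually_ge_atTop (k + 1))] with N hN
    nlinarith)
  obtain ⟨e, he⟩ : ∃ e : ℝ, e = 1 / (16 * (k + 3 : ℕ)) := ⟨_, rfl⟩
  have he0 : 0 < e := by rw [he]; positivity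
  refine ⟨δ1 / 2 * e, by positivity, fun δ hδpos hδ => ⟨fun N x => f (nn δ1 N) (G N x), ?_, ?_⟩⟩
  · filter_upwards [(nn_tendsto hδ1).eventually hup, eventually_ge_atTop 3] with N h1 hN
    have hnN : nn δ1 N ≤ N := nn_le_self (by linarith) (by omega)
    obtain ⟨L, hL1, hL2, hL3⟩ := hG.prog N
    have hlog : Nat.log 2 (nn δ1 N) ^ 3 ≤ Nat.log 2 N ^ 3 :=
      Nat.pow_le_pow_left (Nat.log_mono_right hnN) 3
    exact Level.smono (gates_le hN hnN hL2) ((Level.precomp hL1 hL3 h1).gmono hlog)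
  · intro c
    obtain ⟨c', hc'⟩ := exists_nat_ge (2 * c / δ1)
    filter_upwards [(nn_tendsto hδ1).eventually (hlow c'), nn_ge hδ1, eventually_ge_atTop 1]
      with N h1 hge hN
    intro W help g v ⟨σ, w, hσ, hw⟩ hg hv α ⟨hS1, hS2⟩
    obtain ⟨hx1, hx2⟩ := exps he0 hδ hN hge
    have hsize : N ^ c ≤ nn δ1 N ^ c' := szs hδ1 hc' hN hge
    refine h1 g (fun x => v w (sub σ x)) ?_ ((game_mono hsize (hv w)).subst σ) α ⟨?_, ?_⟩
    · rw [← he]
      exact hg.trans hx1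
    · intro x hx
      have h2 := hS1 (sub σ x) (by
        show f (nn δ1 N) (G N (sub σ x))
        rwa [hσ])
      rw [hw] at h2
      refine le_trans ?_ h2
      rw [← he]
      linarith
    · intro x hx
      have h2 := hS2 (sub σ x) (by
        show ¬ f (nn δ1 N) (G N (sub σ x))
        rwa [hσ])
      rwa [hw] at h2

theorem ma_gen (hδ1 : 0 < δ1) (hδ18 : δ1 ≤ 1 / 8) (hG : Gd δ1 G) :
    ∃ δ0 : ℝ, 0 < δ0 ∧ ∀ δ : ℝ, 0 < δ → δ ≤ δ0 → ∃ Y Z : ∀ N : ℕ, (Fin N → Bool) → Prop,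
      (∀ᶠ N : ℕ in atTop, ∃ v : (Fin N → Bool) → ℝ,
        ArthurMerlin (Nat.log 2 N ^ 3) (N ^ 3) v ∧
        (∀ x, Y N x → v x = 1) ∧ ∀ x, Z N x → v x ≤ (N : ℝ) ^ (-δ)) ∧
      ∀ c : ℕ, ∀ᶠ N : ℕ in atTop, ∀ (W : Type) (help : (Fin N → Bool) → W) (g : ℕ)
        (v : W → (Fin N → Bool) → ℝ), Good (G N) help →
        (g : ℝ) ≤ (N : ℝ) ^ δ → (∀ w, MerlinArthur g (N ^ c) (v w)) →
        ∀ α : ℝ, ¬ ((∀ x, Y N x → α + (N : ℝ) ^ (-δ) ≤ v (help x) x) ∧
          ∀ x, Z N x → v (help x) x ≤ α) := by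
  obtain ⟨e, Y, Z, he0, hup, hlow⟩ := am_vs_ma
  refine ⟨δ1 / 2 * e, by positivity, fun δ hδpos hδ => ⟨fun N x => Y (nn δ1 N) (G N x),
    fun N x => Z (nn δ1 N) (G N x), ?_, ?_⟩⟩
  · filter_upwards [(nn_tendsto hδ1).eventually hup, nn_ge hδ1, eventually_ge_atTop 3]
      with N h1 hge hN
    have hnN : nn δ1 N ≤ N := nn_le_self (by linarith) (by omega)
    obtain ⟨hx1, hx2⟩ := exps he0 hδ (by omega) hge
    obtain ⟨L, hL1, hL2, hL3⟩ := hG.prog N
    have hlog : Nat.log 2 (nn δ1 N) ^ 3 ≤ Nat.log 2 N ^ 3 :=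
      Nat.pow_le_pow_left (Nat.log_mono_right hnN) 3
    obtain ⟨v, ⟨Ω, i, p, C, h0, hs, hC, hv⟩, hY, hZ⟩ := h1
    refine ⟨fun x => v (G N x), ⟨Ω, i, p, fun ω u x =>
      C ω (fun j => u (Fin.castLE hlog j)) (G N x), h0, hs, fun ω u => ?_, fun x => ?_⟩,
      ?_, ?_⟩
    · exact MComp.smono (MComp.precomp hL1 hL3 (hC ω _)) (gates_le hN hnN hL2)
    · show v (G N x) = _
      rw [hv]
      refine sum_congr rfl fun ω _ => ?_
      congr 2
      apply propext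
      constructor
      · rintro ⟨u, hu⟩
        refine ⟨fun j => if h : j.val < Nat.log 2 (nn δ1 N) ^ 3 then u ⟨j, h⟩ else false, ?_⟩
        have h3 : (fun j : Fin (Nat.log 2 (nn δ1 N) ^ 3) =>
            (fun j : Fin (Nat.log 2 N ^ 3) => if h : j.val < Nat.log 2 (nn δ1 N) ^ 3 then
              u ⟨j, h⟩ else false) (Fin.castLE hlog j)) = u := by
          funext j
          simp
        show C ω _ (G N x) = true
        rw [h3]
        exact hu
      · rintro ⟨u, hu⟩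
        exact ⟨_, hu⟩
    · intro x hx
      exact hY _ hx
    · intro x hx
      exact (hZ _ hx).trans hx2
  · intro c
    obtain ⟨c', hc'⟩ := exists_nat_ge (2 * c / δ1)
    filter_upwards [(nn_tendsto hδ1).eventually (hlow c'), nn_ge hδ1, eventually_ge_atTop 1]
      with N h1 hge hN
    intro W help g v ⟨σ, w, hσ, hw⟩ hg hv α ⟨hS1, hS2⟩
    obtain ⟨hx1, hx2⟩ := exps he0 hδ hN hge
    have hsize : N ^ c ≤ nn δ1 N ^ c' := szs hδ1 hc' hN hge
    obtain ⟨D, hD, hv'⟩ := hv w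
    refine h1 g (fun x => v w (sub σ x)) (hg.trans hx1)
      ⟨fun u x => D u (sub σ x), fun u => ?_, fun x => hv' _⟩ α ⟨?_, ?_⟩
    · obtain ⟨Ω, i, p, C, h0, hs, hC, hv''⟩ := hD u
      exact ⟨Ω, i, p, fun ω z => C ω (sub σ z), h0, hs,
        fun ω => MComp.smono (Level.base_sub (hC ω) σ) hsize, fun x => hv'' _⟩
    · intro x hx
      have h2 := hS1 (sub σ x) (by
        show Y (nn δ1 N) (G N (sub σ x))
        rwa [hσ])
      rw [hw] at h2
      refine le_trans ?_ h2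
      linarith
    · intro x hx
      have h2 := hS2 (sub σ x) (by
        show Z (nn δ1 N) (G N (sub σ x))
        rwa [hσ])
      rwa [hw] at h2

end Pool.Agent.J6H11.Ltf
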