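import Mathlib

/-!
# Linear threshold functions are constant on random subcubes: statements of the modules

A block has `M` clauses `c`, each with two variables `(c, false)`, `(c, true)`. A configuration
`κ = (j, r, ξ)` of a block: in the clause `j` the variable `(j, r j)` is `0` and the variable
`(j, ! r j)` is free; in the other clauses `c` the variable `(c, r c)` is `1` and the variable
`(c, ! r c)` is `ξ c`. Goal: `T` linear threshold functions of the variables of `n` blocks are all
constant on the subcube given by some configurations, if `2 T n < √M`.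
-/

set_option autoImplicit false

namespace Pool.Agent.J6H11.Ltf

open Finset

/-- configurations of a block -/
abbrev Cf (M : ℕ) : Type := Fin M × (Fin M → Bool) × (Fin M → Bool)

/-- the value of a linear form on a block with the configuration `κ`, if the free variable is `t` -/
noncomputable def bv {M : ℕ} (α : Fin M → Bool → ℝ) (κ : Cf M) (t : Bool) : ℝ :=
  ∑ c, if c = κ.1 then (if t = true then α c (!κ.2.1 c) else 0)
    else α c (κ.2.1 c) + if κ.2.2 c = true then α c (!κ.2.1 c) else 0

/-- **LTF-LO** (60 lines). The theorem of Erdős and Littlewood–Offord. PROOF. Fix the values `ξ c` for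
`c ∉ J` (`2 ^ (M - |J|)` possibilities). Then the sets `{c ∈ J | (ξ c = true) = (0 < b c)}` are an
antichain: if one is properly contained in another one, then the sum increases by at least `δ`. Sperner:
`IsAntichain.sperner`. (For the counting: e.g. induction is not needed, use an injection of the set
into `(J-complement values) × antichain`, or `Fintype.card_pi`-like fibres over the restriction to `Jᶜ`.) -/
def S_LO : Prop := ∀ (M : ℕ) (b : Fin M → ℝ) (J : Finset (Fin M)) (u δ : ℝ), 0 < δ →
  (∀ c ∈ J, δ ≤ |b c|) →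
  ((univ : Finset (Fin M → Bool)).filter fun ξ => u ≤ ∑ c, (if ξ c = true then b c else 0) ∧
    ∑ c, (if ξ c = true then b c else 0) < u + δ).card ≤
    2 ^ (M - J.card) * J.card.choose (J.card / 2)

/-- **LTF-CB** (40 lines). PROOF. `C(2k,k)² (3k+1) ≤ 16^k` by induction (`Nat.succ_mul_centralBinom_succ`),
and `C(2k+1,k) = C(2k+2,k+1)/2`; the sum by induction, `1/√(k+1) ≤ 2(√(k+1) - √k)`. -/
def S_CB : Prop := (∀ m : ℕ, (m.choose (m / 2) : ℝ) * Real.sqrt (m + 1) ≤ 2 ^ m) ∧
  ∀ M : ℕ, ∑ k ∈ range M, 1 / Real.sqrt ((k : ℝ) + 1) ≤ 2 * Real.sqrt M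

/-- **LTF-BLK** (80 lines; uses `S_LO`, `S_CB` as hypotheses). PROOF. Fix `r` and let `b c = α c (! r c)`.
For fixed `j` the condition says that `∑ c, ξ c * b' c`, `b' = b` except `b' j = 0`, lies in a
half-open interval of length `|b j|` (closed at the left end; empty if `b j = 0`). By `S_LO` with
`J = {c ≠ j | |b j| ≤ |b c|}`, `m j = |J|`, the number of the `ξ` is at most
`2 ^ (M - m j) * C(m j, m j / 2) ≤ 2 ^ M / √(m j + 1)`. If `s` sorts `|b|` (`Tuple.sort`,
`Tuple.monotone_sort`), then `m (s k) ≥ M - 1 - k`, so the sum over `j` is at most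
`2 ^ M * ∑ k < M, 1 / √(k + 1) ≤ 2 ^ M * 2 √M`. Sum over the `2 ^ M` functions `r`; `|Cf M| = M * 2^M * 2^M`. -/
def S_BLK : Prop := ∀ (M : ℕ) (α : Fin M → Bool → ℝ) (τ : ℝ),
  (((univ : Finset (Cf M)).filter fun κ => min (bv α κ false) (bv α κ true) < τ ∧
    τ ≤ max (bv α κ false) (bv α κ true)).card : ℝ) * Real.sqrt M ≤ 2 * Fintype.card (Cf M)

/-- **LTF-ALL** (80 lines; uses `S_BLK` as hypothesis). PROOF. For `κ : Fin n → Cf M` let `lo i`, `hi i` be the
minimum and the maximum of `bv (α t i) (κ i)`. If the function number `t` is not constant, then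
`∑ lo < θ t ≤ ∑ hi`, so there is `i` with
`∑_{i' < i} hi i' + ∑_{i' ≥ i} lo i' < θ t ≤ ∑_{i' ≤ i} hi i' + ∑_{i' > i} lo i'` (the first `i` for which the
right side is at least `θ t`). For fixed `i` and fixed `κ i'`, `i' ≠ i`, the number of such `κ i` is at most
`2 |Cf M| / √M` by `S_BLK`. So there are at most `T * n * 2 / √M * |Cf M| ^ n < |Cf M| ^ n` functions `κ` for which
some function is not constant. (For the fibres: `∑_κ g κ = ∑_κ ∑_{κ'} g (Function.update κ i κ') / |Cf M|`,
or `Equiv.piSplitAt`/`Fin.insertNth`.) -/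
def S_ALL : Prop := ∀ (M n T : ℕ) (α : Fin T → Fin n → Fin M → Bool → ℝ) (θ : Fin T → ℝ),
  2 * (T : ℝ) * n < Real.sqrt M → ∃ κ : Fin n → Cf M, ∀ t,
    (∀ y : Fin n → Bool, θ t ≤ ∑ i, bv (α t i) (κ i) (y i)) ∨
    ∀ y : Fin n → Bool, ∑ i, bv (α t i) (κ i) (y i) < θ t

end Pool.Agent.J6H11.Ltf
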